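import Mathlib

/-!
# Averaging over a finite group and the roots of unity
-/

set_option autoImplicit false
set_option linter.unusedSectionVars false
set_option linter.style.haveILetI false

namespace Pool.Agent.TH144.NV

open Finset

variable {k : Type*} [Field k] [IsAlgClosed k] [CharZero k]

noncomputable instance rootsFintype (n : ℕ) [NeZero n] : Fintype (rootsOfUnity n k) :=
  Fintype.ofFinite _

theorem card_roots (n : ℕ) [NeZero n] : Nat.card (rootsOfUnity n k) = n :=
  HasEnoughRootsOfUnity.natCard_rootsOfUnity k n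

open Classical in
theorem card_fiber (M w : ℕ) [NeZero M] (hw : 0 < w) (hwM : w ∣ M) (a : kˣ)
    (ha : a ^ (M / w) = 1) :
    (univ.filter fun μ : rootsOfUnity M k => a = (μ : kˣ) ^ w).card = w := by
  haveI : NeZero w := ⟨hw.ne'⟩
  obtain ⟨z, hz⟩ := IsAlgClosed.exists_pow_nat_eq (a : k) hw
  have hz0 : z ≠ 0 := by
    rintro rfl
    rw [zero_pow hw.ne'] at hz
    exact a.ne_zero hz.symm
  set μ0 : kˣ := Units.mk0 z hz0
  have hμ0 : μ0 ^ w = a := by
    ext
    simpa [μ0] using hz
  have hμM : μ0 ^ M = 1 := by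
    obtain ⟨v, rfl⟩ := hwM
    rw [pow_mul, hμ0]
    rwa [Nat.mul_div_cancel_left _ hw] at ha
  have e : {μ : rootsOfUnity M k // a = (μ : kˣ) ^ w} ≃ rootsOfUnity w k :=
    { toFun := fun μ => ⟨μ0⁻¹ * (μ.1 : kˣ), by
        rw [mem_rootsOfUnity, mul_pow, inv_pow, hμ0, ← μ.2, inv_mul_cancel]⟩
      invFun := fun ν => ⟨⟨μ0 * (ν : kˣ), by
        have hν := (mem_rootsOfUnity w (ν : kˣ)).1 ν.2
        obtain ⟨v, hv⟩ := hwM
        rw [mem_rootsOfUnity, mul_pow, hμM, one_mul, hv, pow_mul, hν, one_pow]⟩, by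
        have hν := (mem_rootsOfUnity w (ν : kˣ)).1 ν.2
        show a = (μ0 * (ν : kˣ)) ^ w
        rw [mul_pow, hμ0, hν, mul_one]⟩
      left_inv := fun μ => by
        apply Subtype.ext
        apply Subtype.ext
        simp
      right_inv := fun ν => by
        apply Subtype.ext
        simp }
  rw [← Fintype.card_subtype, ← Nat.card_eq_fintype_card, Nat.card_congr e, card_roots]

/-- a character sum over a coset-closed set -/
theorem sum_char {A : Type*} [Group A] (S : Finset A) (c : A →* ℂ) (x0 : A)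
    (hS : ∀ x, x ∈ S ↔ x0 * x ∈ S) (h0 : c x0 ≠ 1) : ∑ x ∈ S, c x = 0 := by
  have h1 : ∑ x ∈ S, c (x0 * x) = ∑ x ∈ S, c x :=
    Finset.sum_equiv (Equiv.mulLeft x0) (fun x => by simpa using hS x) (fun x _ => by simp)
  have h2 : (c x0 - 1) * ∑ x ∈ S, c x = 0 := by
    rw [sub_mul, one_mul, Finset.mul_sum]
    simp only [← map_mul]
    rw [h1, sub_self]
  rcases mul_eq_zero.1 h2 with h3 | h3
  · exact absurd (sub_eq_zero.1 h3) h0
  · exact h3

variable {G : Type*} [Group G] [Finite G]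

/-- the pair (weight, character) takes part in level `h` -/
def Good (h : ℕ) (w : ℕ) (α : G →* kˣ) : Prop := ∀ (g : G) (μ : kˣ), α g = μ ^ w → μ ^ h = 1

theorem Good.dvd {h w : ℕ} (hw : 0 < w) {α : G →* kˣ} (H : Good h w α) :
    w ∣ h ∧ ∀ g, α g ^ (h / w) = 1 := by
  haveI : NeZero w := ⟨hw.ne'⟩
  have h1 : w ∣ h := by
    obtain ⟨ζ, hζ⟩ := HasEnoughRootsOfUnity.exists_primitiveRoot k w
    have hu := hζ.isUnit_unit hw.ne'
    have := H 1 (hζ.isUnit hw.ne').unit (by
      rw [map_one]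
      ext
      simpa using hζ.pow_eq_one.symm)
    apply hζ.dvd_of_pow_eq_one
    have h2 := congrArg (fun u : kˣ => (u : k)) this
    simpa using h2
  refine ⟨h1, fun g => ?_⟩
  obtain ⟨z, hz⟩ := IsAlgClosed.exists_pow_nat_eq (α g : k) hw
  have hz0 : z ≠ 0 := by
    rintro rfl
    rw [zero_pow hw.ne'] at hz
    exact (α g).ne_zero hz.symm
  have hμ : α g = (Units.mk0 z hz0) ^ w := by
    ext
    simpa using hz.symm
  have := H g _ hμ
  obtain ⟨v, rfl⟩ := h1
  rw [Nat.mul_div_cancel_left _ hw, hμ, ← pow_mul]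
  exact this

open Classical in
/-- The averaged inequality. -/
theorem main_ineq {σ τ : Type*} [Fintype σ] [Fintype τ] (w : σ → ℕ) (hw : ∀ i, 0 < w i)
    (d : τ → ℕ) (hd : ∀ j, 0 < d j) (α : σ → G →* kˣ) (χ : τ → G →* kˣ) (h : ℕ)
    (H : ∀ (g : G) (μ : kˣ), μ ^ h ≠ 1 →
      (univ.filter fun i => α i g = μ ^ w i).card ≤ (univ.filter fun j => χ j g = μ ^ d j).card) :
    ∑ i ∈ univ.filter (fun i => ¬ Good h (w i) (α i)), w i
      ≤ ∑ j ∈ univ.filter (fun j => ¬ Good h (d j) (χ j)), d j := by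
  haveI : Fintype G := Fintype.ofFinite G
  set M : ℕ := Nat.card G * ((∏ i, w i) * ∏ j, d j) with hM
  have hcG : 0 < Nat.card G := Nat.card_pos
  have hM0 : M ≠ 0 := by
    rw [hM]
    refine mul_ne_zero hcG.ne' (mul_ne_zero ?_ ?_)
    · exact Finset.prod_ne_zero_iff.2 fun i _ => (hw i).ne'
    · exact Finset.prod_ne_zero_iff.2 fun j _ => (hd j).ne'
  haveI : NeZero M := ⟨hM0⟩
  haveI : IsCyclic (rootsOfUnity M k) := inferInstance
  haveI : IsCyclic (rootsOfUnity M ℂ) := inferInstance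
  let e : rootsOfUnity M k ≃* rootsOfUnity M ℂ := mulEquivOfCyclicCardEq (by
    rw [card_roots, card_roots])
  let A := G × rootsOfUnity M k
  let c : A →* ℂ :=
    { toFun := fun x => (((e x.2 : rootsOfUnity M ℂ) : ℂˣ) : ℂ) ^ h
      map_one' := by simp
      map_mul' := fun x y => by
        rw [← mul_pow]
        congr 1
        have h1 : (x * y).2 = x.2 * y.2 := rfl
        rw [h1, map_mul]
        simp }
  have hcdef : ∀ x : A, c x = (((e x.2 : rootsOfUnity M ℂ) : ℂˣ) : ℂ) ^ h := fun x => rfl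
  have hc1 : ∀ x : A, c x = 1 ↔ (x.2 : kˣ) ^ h = 1 := by
    intro x
    rw [hcdef]
    constructor
    · intro hx
      have h1 : (e x.2) ^ h = 1 := by
        apply Subtype.ext
        apply Units.ext
        simpa using hx
      rw [← map_pow] at h1
      have h2 := (MulEquiv.map_eq_one_iff e).1 h1
      simpa using congrArg (fun u : rootsOfUnity M k => (u : kˣ)) h2
    · intro hx
      have h1 : (x.2) ^ h = 1 := by
        apply Subtype.ext
        simpa using hx
      have h2 : (e x.2) ^ h = 1 := by rw [← map_pow, h1, map_one]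
      have h3 := congrArg (fun u : rootsOfUnity M ℂ => ((u : ℂˣ) : ℂ)) h2
      simpa using h3
  have hnorm : ∀ x : A, ‖c x‖ = 1 := by
    intro x
    rw [hcdef, norm_pow]
    have : ‖(((e x.2 : rootsOfUnity M ℂ) : ℂˣ) : ℂ)‖ = 1 := by
      apply Complex.norm_eq_one_of_pow_eq_one (n := M) _ hM0
      have h1 := (mem_rootsOfUnity M ((e x.2 : rootsOfUnity M ℂ) : ℂˣ)).1 (e x.2).2
      have h2 := congrArg (fun u : ℂˣ => (u : ℂ)) h1
      simpa using h2
    rw [this, one_pow]
  set ψ : A → ℝ := fun x => 1 - (c x).re with hψ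
  have hψ0 : ∀ x, 0 ≤ ψ x := by
    intro x
    have := Complex.re_le_norm (c x)
    rw [hnorm] at this
    show 0 ≤ 1 - (c x).re
    linarith
  have hψ1 : ∀ x : A, (x.2 : kˣ) ^ h = 1 → ψ x = 0 := by
    intro x hx
    show 1 - (c x).re = 0
    rw [(hc1 x).2 hx]
    simp
  -- the sum attached to one pair
  have key : ∀ (v : ℕ) (β : G →* kˣ), 0 < v → (v * Nat.card G) ∣ M →
      ∑ x ∈ univ.filter (fun x : A => β x.1 = (x.2 : kˣ) ^ v), ψ x
        = if Good h v β then 0 else (Nat.card G : ℝ) * v := by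
    intro v β hv hvM
    have hβ : ∀ g, β g ^ Nat.card G = 1 := fun g => by
      rw [← map_pow, pow_card_eq_one', map_one]
    have hvM' : v ∣ M := (Dvd.intro _ rfl).trans hvM
    have hβM : ∀ g, β g ^ (M / v) = 1 := by
      intro g
      obtain ⟨u, hu⟩ := hvM
      rw [hu, mul_assoc, Nat.mul_div_cancel_left _ hv, pow_mul, hβ, one_pow]
    split_ifs with hg
    · refine Finset.sum_eq_zero fun x hx => hψ1 x ?_
      exact hg x.1 _ (Finset.mem_filter.1 hx).2
    · have hcard : (univ.filter (fun x : A => β x.1 = (x.2 : kˣ) ^ v)).card = Nat.card G * v := by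
        have h1 : (univ.filter (fun x : A => β x.1 = (x.2 : kˣ) ^ v)).card
            = ∑ g : G, (univ.filter fun μ : rootsOfUnity M k => β g = (μ : kˣ) ^ v).card := by
          rw [Finset.card_filter, Fintype.sum_prod_type]
          refine Finset.sum_congr rfl fun g _ => ?_
          rw [Finset.card_filter]
        rw [h1, Finset.sum_congr rfl fun g _ => card_fiber M v hv hvM' (β g) (hβM g)]
        simp
      rw [Good] at hg
      push Not at hg
      obtain ⟨g, μ, h1, h2⟩ := hg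
      have hμ : μ ∈ rootsOfUnity M k := by
        rw [mem_rootsOfUnity]
        obtain ⟨u, hu⟩ := hvM'
        have := hβM g
        rw [hu, Nat.mul_div_cancel_left _ hv] at this
        rw [hu, pow_mul, ← h1, this]
      have hz := sum_char (univ.filter (fun x : A => β x.1 = (x.2 : kˣ) ^ v)) c (g, ⟨μ, hμ⟩) (by
        intro x
        have e1 : β ((g, (⟨μ, hμ⟩ : rootsOfUnity M k)) * x).1 = β g * β x.1 := map_mul β g x.1
        have e2 : (((g, (⟨μ, hμ⟩ : rootsOfUnity M k)) * x).2 : kˣ) ^ v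
            = μ ^ v * (x.2 : kˣ) ^ v := mul_pow μ (x.2 : kˣ) v
        rw [mem_filter, mem_filter, e1, e2, h1, mul_right_inj]
        simp only [mem_univ, true_and]) (by
        rw [Ne, hc1]
        exact h2)
      have h3 : ∑ x ∈ univ.filter (fun x : A => β x.1 = (x.2 : kˣ) ^ v), ψ x
          = ((univ.filter (fun x : A => β x.1 = (x.2 : kˣ) ^ v)).card : ℝ)
            - (∑ x ∈ univ.filter (fun x : A => β x.1 = (x.2 : kˣ) ^ v), c x).re := by
        rw [hψ, Finset.sum_sub_distrib, Complex.re_sum]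
        simp
      rw [h3, hz, hcard]
      simp
  have hdvd1 : ∀ i, (w i * Nat.card G) ∣ M := by
    intro i
    rw [hM, mul_comm (w i)]
    exact mul_dvd_mul_left _ ((Finset.dvd_prod_of_mem w (mem_univ i)).mul_right _)
  have hdvd2 : ∀ j, (d j * Nat.card G) ∣ M := by
    intro j
    rw [hM, mul_comm (d j)]
    exact mul_dvd_mul_left _ ((Finset.dvd_prod_of_mem d (mem_univ j)).mul_left _)
  -- total sum
  have htot : ∑ i, ∑ x ∈ univ.filter (fun x : A => α i x.1 = (x.2 : kˣ) ^ w i), ψ x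
      ≤ ∑ j, ∑ x ∈ univ.filter (fun x : A => χ j x.1 = (x.2 : kˣ) ^ d j), ψ x := by
    simp only [Finset.sum_filter]
    rw [Finset.sum_comm, Finset.sum_comm (s := (univ : Finset τ))]
    refine Finset.sum_le_sum fun x _ => ?_
    by_cases hx : (x.2 : kˣ) ^ h = 1
    · rw [hψ1 x hx]
      simp
    · have h1 := H x.1 _ hx
      have e1 : ∑ i, (if α i x.1 = (x.2 : kˣ) ^ w i then ψ x else 0)
          = ((univ.filter fun i => α i x.1 = (x.2 : kˣ) ^ w i).card : ℝ) * ψ x := by
        rw [← Finset.sum_filter, Finset.sum_const, nsmul_eq_mul]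
      have e2 : ∑ j, (if χ j x.1 = (x.2 : kˣ) ^ d j then ψ x else 0)
          = ((univ.filter fun j => χ j x.1 = (x.2 : kˣ) ^ d j).card : ℝ) * ψ x := by
        rw [← Finset.sum_filter, Finset.sum_const, nsmul_eq_mul]
      rw [e1, e2]
      exact mul_le_mul_of_nonneg_right (by exact_mod_cast h1) (hψ0 x)
  rw [Finset.sum_congr rfl fun i _ => key (w i) (α i) (hw i) (hdvd1 i),
    Finset.sum_congr rfl fun j _ => key (d j) (χ j) (hd j) (hdvd2 j)] at htot
  have e1 : ∑ i, (if Good h (w i) (α i) then (0 : ℝ) else (Nat.card G : ℝ) * w i)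
      = (Nat.card G : ℝ) * ((∑ i ∈ univ.filter (fun i => ¬ Good h (w i) (α i)), w i : ℕ) : ℝ) := by
    rw [Finset.sum_filter, Nat.cast_sum, Finset.mul_sum]
    refine Finset.sum_congr rfl fun i _ => ?_
    by_cases hg : Good h (w i) (α i) <;> simp [hg]
  have e2 : ∑ j, (if Good h (d j) (χ j) then (0 : ℝ) else (Nat.card G : ℝ) * d j)
      = (Nat.card G : ℝ) * ((∑ j ∈ univ.filter (fun j => ¬ Good h (d j) (χ j)), d j : ℕ) : ℝ) := by
    rw [Finset.sum_filter, Nat.cast_sum, Finset.mul_sum]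
    refine Finset.sum_congr rfl fun j _ => ?_
    by_cases hg : Good h (d j) (χ j) <;> simp [hg]
  rw [e1, e2] at htot
  have := le_of_mul_le_mul_left htot (by exact_mod_cast hcG)
  exact_mod_cast this

end Pool.Agent.TH144.NV
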