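import Mathlib
import Pool.Agent.H952R2.Sextic.CommonZero

/-!
# Weighted homogeneous systems with a diagonal action: counting fixed coordinates
-/

set_option autoImplicit false
set_option linter.unusedSectionVars false

namespace Pool.Agent.TH144.NV

open MvPolynomial Finset

variable {k : Type*} [Field k]

section basic
variable {σ : Type*} [Fintype σ]

/-- scaling of the variables -/
noncomputable def act (t : σ → k) : MvPolynomial σ k →ₐ[k] MvPolynomial σ k :=
  aeval fun i => C (t i) * X i

theorem eval_act (t p : σ → k) (a : MvPolynomial σ k) :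
    eval p (act t a) = eval (fun i => t i * p i) a := by
  unfold act
  induction a using MvPolynomial.induction_on with
  | C c => simp
  | add a b ha hb => simp only [map_add, ha, hb]
  | mul_X a i ha => simp only [map_mul, ha, aeval_X, eval_X, eval_C]

theorem eval_wscale {w : σ → ℕ} {φ : MvPolynomial σ k} {m : ℕ} (h : IsWeightedHomogeneous w φ m)
    (t : k) (x : σ → k) :
    eval (fun i => t ^ w i * x i) φ = t ^ m * eval x φ := by
  rw [eval_eq, eval_eq, Finset.mul_sum]
  refine Finset.sum_congr rfl (fun d hd => ?_)
  have hw := h (mem_support_iff.1 hd)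
  rw [Finsupp.weight_apply, Finsupp.sum_fintype _ _ (by simp)] at hw
  have h1 : ∏ i ∈ d.support, (t ^ w i * x i) ^ d i = ∏ i, (t ^ w i * x i) ^ d i :=
    Finset.prod_subset (Finset.subset_univ _) (fun i _ hi => by
      rw [Finsupp.notMem_support_iff.1 hi, pow_zero])
  have h2 : ∏ i ∈ d.support, (x i) ^ d i = ∏ i, (x i) ^ d i :=
    Finset.prod_subset (Finset.subset_univ _) (fun i _ hi => by
      rw [Finsupp.notMem_support_iff.1 hi, pow_zero])
  rw [h1, h2]
  simp only [mul_pow, Finset.prod_mul_distrib, ← pow_mul]
  rw [Finset.prod_pow_eq_pow_sum, ← hw]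
  simp only [smul_eq_mul, mul_comm (w _)]
  ring

/-- a weighted homogeneous polynomial of positive degree vanishes at the origin -/
theorem eval_origin {w : σ → ℕ} {φ : MvPolynomial σ k} {m : ℕ} (h : IsWeightedHomogeneous w φ m)
    (hm : 0 < m) : eval 0 φ = 0 := by
  rw [eval_zero, constantCoeff_eq]
  by_contra h0
  have := h h0
  simp at this
  omega

end basic

section count
variable {σ τ : Type*} [Fintype σ] [Fintype τ] [IsAlgClosed k]

open Classical in
/-- If the part of the zero set on which `t` acts as the scaling by `μ` is the origin, then there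
are at least as many equations of the matching character as matching coordinates. -/
theorem count_le (w : σ → ℕ) (d : τ → ℕ) (hd : ∀ j, 0 < d j) (f : τ → MvPolynomial σ k)
    (hf : ∀ j, IsWeightedHomogeneous w (f j) (d j)) (t : σ → k) (s : τ → k)
    (hs : ∀ j, act t (f j) = C (s j) * f j) (μ : k)
    (h0 : ∀ p : σ → k, (∀ i, t i * p i = μ ^ w i * p i) → (∀ j, eval p (f j) = 0) → p = 0) :
    (univ.filter fun i => t i = μ ^ w i).card ≤ (univ.filter fun j => s j = μ ^ d j).card := by
  by_contra hcon
  push Not at hcon
  set T := univ.filter fun i => t i = μ ^ w i with hT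
  set E := univ.filter fun j => s j = μ ^ d j with hE
  -- restrict the equations
  let ι := {i // i ∈ T}
  let κ := {j // j ∈ E}
  let ext : (ι → k) → (σ → k) := fun q i => if h : i ∈ T then q ⟨i, h⟩ else 0
  let r : MvPolynomial σ k →ₐ[k] MvPolynomial ι k :=
    aeval fun i => if h : i ∈ T then X ⟨i, h⟩ else 0
  have hr : ∀ (q : ι → k) (a : MvPolynomial σ k), eval q (r a) = eval (ext q) a := by
    intro q a
    induction a using MvPolynomial.induction_on with
    | C c => simp [r]
    | add a b ha hb => simp only [map_add, ha, hb]
    | mul_X a i ha =>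
      rw [map_mul, map_mul, map_mul, ha, eval_X]
      congr 1
      simp only [r, aeval_X, ext]
      split_ifs <;> simp
  obtain ⟨q, hq0, hq⟩ := Pool.Agent.H952R2.Sextic.exists_common_zero (K := k) (ι := ι) (κ := κ)
    (by simpa [ι, κ, Fintype.card_coe] using hcon) (fun j => r (f j)) (by
      intro j
      rw [hr]
      have : ext 0 = 0 := by
        funext i
        simp [ext]
      rw [this]
      exact eval_origin (hf j) (hd j))
  have hfix : ∀ i, t i * ext q i = μ ^ w i * ext q i := by
    intro i
    by_cases h : i ∈ T
    · have := (Finset.mem_filter.1 h).2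
      rw [this]
    · simp [ext, h]
  have hz : ∀ j, eval (ext q) (f j) = 0 := by
    intro j
    by_cases h : j ∈ E
    · rw [← hr]
      exact hq ⟨j, h⟩
    · have hne : s j ≠ μ ^ d j := fun h' => h (Finset.mem_filter.2 ⟨mem_univ _, h'⟩)
      have h1 : eval (ext q) (act t (f j)) = s j * eval (ext q) (f j) := by
        rw [hs, map_mul, eval_C]
      rw [eval_act] at h1
      have h2 : (fun i => t i * ext q i) = fun i => μ ^ w i * ext q i := funext hfix
      rw [h2, eval_wscale (hf j)] at h1
      have h3 : (s j - μ ^ d j) * eval (ext q) (f j) = 0 := by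
        rw [sub_mul, ← h1, sub_self]
      rcases mul_eq_zero.1 h3 with h4 | h4
      · exact absurd (sub_eq_zero.1 h4) hne
      · exact h4
  have := h0 _ hfix hz
  apply hq0
  funext i
  have hi := congrFun this i.1
  simpa [ext, i.2] using hi

end count

end Pool.Agent.TH144.NV
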